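import Pool.Agent.H49.KF.Defs
import Pool.Agent.H49.KE.Fin

/-! The definitions of `KF/Defs.lean` compared with those of the library. -/

namespace H49KF

open Matrix

universe u v

theorem finFin_iff (G : Type u) [Group G] : H49KE.FinFin G ↔ FinFin G := by
  unfold H49KE.FinFin FinFin FinRep
  refine exists_congr fun k => exists_congr fun _ => exists_congr fun _ =>
    exists_congr fun V => exists_congr fun _ => exists_congr fun _ =>
    exists_congr fun ρ => and_congr_right fun _ => forall_congr' fun g => ?_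
  constructor
  · intro h
    have h1 : (LinearMap.range (ρ g - 1)).FG := Submodule.fg_iff_finiteDimensional _ |>.2 h
    obtain ⟨s, hs⟩ := h1
    refine ⟨s, fun v => ?_⟩
    rw [hs]
    exact ⟨v, by simp⟩
  · rintro ⟨s, hs⟩
    have h2 : LinearMap.range (ρ g - 1) ≤ Submodule.span k (s : Set V) := by
      rintro _ ⟨v, rfl⟩
      have := hs v
      simpa using this
    have h3 : FiniteDimensional k (Submodule.span k (s : Set V)) :=
      FiniteDimensional.span_finset k s
    exact Submodule.finiteDimensional_of_le h2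

theorem linearGrp_of (G : Type u) [Group G] (h : H49KE.LinearGrp G) : LinearGrp G := by
  obtain ⟨k, hk, V, hV, hm, hf, ρ, hρ⟩ := h
  let b := Module.finBasis k V
  refine ⟨k, hk, Module.finrank k V,
    ((LinearMap.toMatrixAlgEquiv b : Module.End k V ≃ₐ[k] _).toMulEquiv.toMonoidHom).comp ρ, ?_⟩
  intro x y hxy
  apply hρ
  apply (LinearMap.toMatrixAlgEquiv b).injective
  exact hxy

section lin

variable {n : ℕ} {k : Type v} [Field k]

/-- matrices as linear equivalences -/
noncomputable def eqv (n : ℕ) (k : Type v) [Field k] :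
    GL (Fin n) k ≃* ((Fin n → k) ≃ₗ[k] (Fin n → k)) :=
  (Matrix.GeneralLinearGroup.toLin).trans
    (LinearMap.GeneralLinearGroup.generalLinearEquiv k (Fin n → k))

theorem eqv_apply (g : GL (Fin n) k) (x : Fin n → k) : eqv n k g x = g.val *ᵥ x := rfl

theorem eqv_coe (g : GL (Fin n) k) :
    ((eqv n k g : (Fin n → k) ≃ₗ[k] (Fin n → k)) : (Fin n → k) →ₗ[k] (Fin n → k)) =
      Matrix.toLin' g.val := rfl

theorem isSL_of {Γ : Subgroup (GL (Fin n) k)} (h : IsSL Γ) :
    H49KB.IsSL (Γ.map (eqv n k).toMonoidHom) := by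
  intro f
  obtain ⟨g, rfl⟩ := (eqv n k).surjective f
  rw [eqv_coe, LinearMap.det_toLin', ← h g]
  exact Subgroup.mem_map_iff_mem (f := (eqv n k).toMonoidHom) (eqv n k).injective

theorem mem_map_eqv {Γ : Subgroup (GL (Fin n) k)} (g : GL (Fin n) k) :
    eqv n k g ∈ Γ.map (eqv n k).toMonoidHom ↔ g ∈ Γ :=
  Subgroup.mem_map_iff_mem (f := (eqv n k).toMonoidHom) (eqv n k).injective

theorem form_eq_iff (A B : Matrix (Fin n) (Fin n) k) :
    (∀ x y : Fin n → k, x ⬝ᵥ A *ᵥ y = x ⬝ᵥ B *ᵥ y) ↔ A = B := by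
  constructor
  · intro h
    ext i j
    have := h (Pi.single i 1) (Pi.single j 1)
    simpa using this
  · rintro rfl x y; rfl

theorem det_form {J : Matrix (Fin n) (Fin n) k} (hJ : J.det ≠ 0) {x : Fin n → k}
    (h : x ᵥ* J = 0) : x = 0 := by
  have h1 : IsUnit J.det := isUnit_iff_ne_zero.2 hJ
  have : (x ᵥ* J) ᵥ* J⁻¹ = x := by
    rw [Matrix.vecMul_vecMul, Matrix.mul_nonsing_inv _ h1, Matrix.vecMul_one]
  rw [← this, h, Matrix.zero_vecMul]

theorem conj_form (J g : Matrix (Fin n) (Fin n) k) (x y : Fin n → k) :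
    x ⬝ᵥ (gᵀ * J * g) *ᵥ y = (g *ᵥ x) ⬝ᵥ J *ᵥ (g *ᵥ y) := by
  rw [← Matrix.mulVec_mulVec, ← Matrix.mulVec_mulVec, Matrix.dotProduct_mulVec x gᵀ,
    Matrix.vecMul_transpose]

theorem isSp_of {Γ : Subgroup (GL (Fin n) k)} (h : IsSp Γ) :
    H49KB.IsSp (Γ.map (eqv n k).toMonoidHom) := by
  obtain ⟨J, h1, h2, h3, h4⟩ := h
  refine ⟨Matrix.toLinearMap₂' k J, ?_, ?_, ?_⟩
  · intro x
    rw [Matrix.toLinearMap₂'_apply']
    have h5 : x ⬝ᵥ J *ᵥ x = ∑ i, ∑ j, x i * J i j * x j := by
      simp only [dotProduct, Matrix.mulVec, Finset.mul_sum, mul_assoc]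
    rw [h5]
    rw [← Finset.sum_product']
    refine Finset.sum_involution (fun p _ => (p.2, p.1)) ?_ ?_ ?_ ?_
    · rintro ⟨i, j⟩ _
      have h6 : J j i = - J i j := by
        have := congrFun (congrFun h2 i) j
        simpa using this
      simp only [h6]; ring
    · rintro ⟨i, j⟩ _ h6 h7
      simp only [Prod.mk.injEq] at h7
      rw [h7.1, h1] at h6
      simp at h6
    · intro p _; simp
    · intro p _; rfl
  · intro x hx
    refine det_form h3 ?_
    ext j
    have := hx (Pi.single j 1)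
    rw [Matrix.toLinearMap₂'_apply'] at this
    simp only [Matrix.mulVec_single_one] at this
    exact this
  · intro f
    obtain ⟨g, rfl⟩ := (eqv n k).surjective f
    rw [mem_map_eqv, h4 g, ← form_eq_iff]
    refine forall_congr' fun x => forall_congr' fun y => ?_
    rw [Matrix.toLinearMap₂'_apply', Matrix.toLinearMap₂'_apply', eqv_apply, eqv_apply,
      conj_form]

/-- the sesquilinear form with matrix `H` -/
def sesq (σ : k →+* k) (H : Matrix (Fin n) (Fin n) k) :
    (Fin n → k) →ₗ[k] (Fin n → k) →ₛₗ[σ] k :=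
  LinearMap.mk₂'ₛₗ (RingHom.id k) σ (fun x y => x ⬝ᵥ H *ᵥ (fun i => σ (y i)))
    (fun x x' y => by simp [add_dotProduct])
    (fun c x y => by simp)
    (fun x y y' => by
      have : (fun i => σ ((y + y') i)) = (fun i => σ (y i)) + fun i => σ (y' i) := by
        ext i; simp
      rw [this, Matrix.mulVec_add, dotProduct_add])
    (fun c x y => by
      have : (fun i => σ ((c • y) i)) = σ c • fun i => σ (y i) := by
        ext i; simp
      rw [this, Matrix.mulVec_smul, dotProduct_smul])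

theorem sesq_apply (σ : k →+* k) (H : Matrix (Fin n) (Fin n) k) (x y : Fin n → k) :
    sesq σ H x y = x ⬝ᵥ H *ᵥ (fun i => σ (y i)) := rfl

theorem map_mulVec (σ : k →+* k) (g : Matrix (Fin n) (Fin n) k) (y : Fin n → k) :
    (fun i => σ ((g *ᵥ y) i)) = g.map σ *ᵥ (fun i => σ (y i)) := by
  ext i
  simp [Matrix.mulVec, dotProduct, map_sum]

theorem isSU_of {Γ : Subgroup (GL (Fin n) k)} (h : IsSU Γ) :
    H49KB.IsSU (Γ.map (eqv n k).toMonoidHom) := by
  obtain ⟨σ, H, h1, h2, h3, h4, h5⟩ := h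
  refine ⟨σ, sesq σ H, h1, h2, ?_, ?_, ?_⟩
  · intro x y
    rw [sesq_apply, sesq_apply]
    simp only [dotProduct, Matrix.mulVec, map_sum, map_mul, h2, Finset.mul_sum]
    rw [Finset.sum_comm]
    refine Finset.sum_congr rfl fun i _ => Finset.sum_congr rfl fun j _ => ?_
    rw [h3 i j]; ring
  · intro x hx
    refine det_form h4 ?_
    ext j
    have h6 := hx (Pi.single j 1)
    rw [sesq_apply] at h6
    have h7 : (fun i => σ ((Pi.single j (1 : k) : Fin n → k) i)) = Pi.single j 1 := by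
      ext i
      by_cases hij : i = j
      · subst hij; simp
      · simp [hij]
    rw [h7, Matrix.mulVec_single_one] at h6
    exact h6
  · intro f
    obtain ⟨g, rfl⟩ := (eqv n k).surjective f
    rw [mem_map_eqv, h5 g, eqv_coe, LinearMap.det_toLin']
    refine and_congr_right fun _ => ?_
    have h8 : (∀ x y : Fin n → k, sesq σ H (eqv n k g x) (eqv n k g y) = sesq σ H x y) ↔
        ∀ x y : Fin n → k, x ⬝ᵥ (g.valᵀ * H * g.val.map σ) *ᵥ (fun i => σ (y i)) =
          x ⬝ᵥ H *ᵥ (fun i => σ (y i)) := by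
      refine forall_congr' fun x => forall_congr' fun y => ?_
      rw [sesq_apply, sesq_apply, eqv_apply, eqv_apply, map_mulVec]
      rw [← Matrix.mulVec_mulVec, ← Matrix.mulVec_mulVec, Matrix.dotProduct_mulVec x g.valᵀ,
        Matrix.vecMul_transpose]
    rw [h8, ← form_eq_iff]
    constructor
    · intro h x y; exact h x _
    · intro h x y
      have h9 := h x (fun i => σ (y i))
      simpa only [h2] using h9

theorem isOm_of {Γ : Subgroup (GL (Fin n) k)} (h : IsOm Γ) :
    H49KB.IsOm (Γ.map (eqv n k).toMonoidHom) := by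
  obtain ⟨Q, h1, h2⟩ := h
  refine ⟨Q, ?_, ?_⟩
  · intro x hx
    refine h1 x fun y => ?_
    have := hx y
    rw [QuadraticMap.polar, sub_sub, sub_eq_zero] at this
    exact this
  · rw [h2, MonoidHom.map_closure, Subgroup.commutator_def]
    congr 1
    ext f
    constructor
    · rintro ⟨c, ⟨a, ha, b, hb, rfl⟩, rfl⟩
      refine ⟨eqv n k a, ha, eqv n k b, hb, ?_⟩
      simp [commutatorElement_def]
    · rintro ⟨a, ha, b, hb, rfl⟩
      obtain ⟨a, rfl⟩ := (eqv n k).surjective a
      obtain ⟨b, rfl⟩ := (eqv n k).surjective b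
      refine ⟨a * b * a⁻¹ * b⁻¹, ⟨a, ha, b, hb, rfl⟩, ?_⟩
      simp [commutatorElement_def]

theorem stdClassical_of {Γ : Subgroup (GL (Fin n) k)} (h : StdClassical Γ) :
    H49KE.StdClassical (Γ.map (eqv n k).toMonoidHom) := by
  rcases h with h | h | h | ⟨h, h7⟩
  · exact Or.inl (isSL_of h)
  · exact Or.inr (Or.inl (isSp_of h))
  · exact Or.inr (Or.inr (Or.inl (isSU_of h)))
  · refine Or.inr (Or.inr (Or.inr ⟨isOm_of h, ?_⟩))
    simpa using h7

theorem scal_map : (Scal n k).map (eqv n k).toMonoidHom = H49KB.Scal k (Fin n → k) := by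
  ext f
  obtain ⟨g, rfl⟩ := (eqv n k).surjective f
  rw [mem_map_eqv, Matrix.GeneralLinearGroup.mem_center_iff_val_mem_range_scalar]
  constructor
  · rintro ⟨c, hc⟩
    refine ⟨c, fun v => ?_⟩
    rw [eqv_apply, ← hc]
    simp
  · rintro ⟨c, hc⟩
    refine ⟨c, ?_⟩
    ext i j
    have h1 := congrFun (hc (Pi.single j 1)) i
    rw [eqv_apply, Matrix.mulVec_single_one] at h1
    have h2 : g.val i j = c * (Pi.single j (1 : k) : Fin n → k) i := h1
    rw [h2]
    by_cases hij : i = j
    · subst hij; simp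
    · simp [hij]

/-- the projective groups are the same -/
noncomputable def pEqv (n : ℕ) (k : Type v) [Field k] :
    PGrp n k ≃* H49KB.PGrp k (Fin n → k) :=
  QuotientGroup.congr (Scal n k) (H49KB.Scal k (Fin n → k)) (eqv n k) scal_map

theorem pEqv_mk (g : GL (Fin n) k) :
    pEqv n k (QuotientGroup.mk' (Scal n k) g) =
      QuotientGroup.mk' (H49KB.Scal k (Fin n → k)) (eqv n k g) := rfl

end lin

variable {G : Type u} [Group G]

theorem stdSec_of {T C : Subgroup G} (h : StdSec T C) : H49KE.StdSec T C := by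
  obtain ⟨k, hk, hf, n, Γ, p, h1, h2, h3⟩ := h
  refine ⟨k, hk, hf, Fin n → k, inferInstance, inferInstance, inferInstance,
    Γ.map (eqv n k).toMonoidHom, (pEqv n k).toMonoidHom.comp p, stdClassical_of h1, ?_, ?_⟩
  · intro t
    rw [← h2 t]
    exact (pEqv n k).map_eq_one_iff
  · rw [MonoidHom.range_comp, h3, Subgroup.map_map, Subgroup.map_map]
    rfl

theorem linSec_of {d : ℕ} {T C : Subgroup G} (h : LinSec d T C) : H49KB.LinSec d T C := by
  obtain ⟨k, hk, n, hn, p, h2⟩ := h
  refine ⟨k, hk, Fin n → k, inferInstance, inferInstance, inferInstance,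
    (pEqv n k).toMonoidHom.comp p, by simpa using hn, ?_⟩
  intro t
  rw [← h2 t]
  exact (pEqv n k).map_eq_one_iff

theorem allTops_of {d : ℕ} {𝓛 : Set (Subgroup G)} (h : AllTops d 𝓛) : H49KE.AllTops d 𝓛 := by
  intro K hK X hX hKX hXX T C hs
  rcases h K hK X hX hKX hXX T C hs with h | ⟨h1, h | h | ⟨h, h'⟩⟩
  · exact Or.inl h
  · exact Or.inr ⟨h1, Or.inl (stdSec_of h)⟩
  · exact Or.inr ⟨h1, Or.inr (Or.inl h)⟩
  · exact Or.inr ⟨h1, Or.inr (Or.inr ⟨fun h2 => h (linearGrp_of G h2), linSec_of h'⟩)⟩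

theorem classification (G : Type u) [Group G] [Infinite G] (hG : LocFin G) (d : ℕ)
    (𝓛 : Set (Subgroup G)) (h𝓛 : LocalSystem 𝓛) (hT : AllTops d 𝓛) :
    AugSimple G ↔ IsSimpleGroup G ∧ ¬ FinFin G ∧ (AltQuot G → RegOrb G) := by
  rw [← finFin_iff]
  exact H49KE.classification G hG d 𝓛 h𝓛 (allTops_of hT)

theorem confined_criterion (G : Type u) [Group G] [Infinite G] (hG : LocFin G) (d : ℕ)
    (𝓛 : Set (Subgroup G)) (h𝓛 : LocalSystem 𝓛) (hT : AllTops d 𝓛) :
    AugSimple G ↔ NoConf G :=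
  H49KE.confined_criterion G hG d 𝓛 h𝓛 (allTops_of hT)

end H49KF
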