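import Mathlib

/-!
Definitions for MP_784abc_al (augmentation ideals of complex group algebras of locally finite
groups): the statements of `Classification` and `Confined`.
-/

namespace H49KF

open Matrix

universe u v

/-- every finite subset generates a finite subgroup -/
def LocFin (G : Type u) [Group G] : Prop :=
  ∀ S : Finset G, Finite (Subgroup.closure (S : Set G))

/-- the augmentation map of the complex group algebra -/
noncomputable def aug {G : Type u} (a : MonoidAlgebra ℂ G) : ℂ :=
  a.coeff.sum fun _ c => c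

/-- The augmentation ideal of the complex group algebra, regarded as a ring without
identity, is simple: it is not zero, and its only two-sided ideals are zero and itself. -/
def AugSimple (G : Type u) [Group G] : Prop :=
  (∃ a : MonoidAlgebra ℂ G, a ≠ 0 ∧ aug a = 0) ∧
  ∀ I : AddSubgroup (MonoidAlgebra ℂ G),
    (∀ a ∈ I, aug a = 0) →
    (∀ a ∈ I, ∀ b : MonoidAlgebra ℂ G, aug b = 0 → a * b ∈ I ∧ b * a ∈ I) →
    (∀ a ∈ I, a = 0) ∨ (∀ a : MonoidAlgebra ℂ G, aug a = 0 → a ∈ I)

/-- some faithful representation on `V` has all `ρ g - 1` of finite rank -/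
def FinRep (G : Type u) [Group G] (k : Type v) [Field k] (V : Type v) [AddCommGroup V]
    [Module k V] : Prop :=
  ∃ ρ : G →* Module.End k V, Function.Injective ρ ∧
    ∀ g : G, ∃ s : Finset V, ∀ v : V, ρ g v - v ∈ Submodule.span k (s : Set V)

/-- `G` is finitary linear over a finite field: it has a faithful representation over a finite
field in which every element differs from the identity by a map of finite rank -/
def FinFin (G : Type u) [Group G] : Prop :=
  ∃ (k : Type u) (_ : Field k) (_ : Finite k) (V : Type u) (_ : AddCommGroup V)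
    (_ : Module k V), FinRep G k V

/-- some faithful representation of degree `n` over `k` exists -/
def MatRep (G : Type u) [Group G] (k : Type v) [Field k] (n : ℕ) : Prop :=
  ∃ ρ : G →* Matrix (Fin n) (Fin n) k, Function.Injective ρ

/-- `G` is a linear group: it has a faithful representation of finite degree over a field -/
def LinearGrp (G : Type u) [Group G] : Prop :=
  ∃ (k : Type u) (_ : Field k) (n : ℕ), MatRep G k n

/-- every finite subset lies in a finite subgroup having a homomorphism onto an alternating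
group that is injective on the subgroup generated by the finite subset -/
def AltQuot (G : Type u) [Group G] : Prop :=
  ∀ S : Finset G, ∃ (X : Subgroup G) (n : ℕ) (p : X →* Equiv.Perm (Fin n)),
    Finite X ∧ (S : Set G) ⊆ X ∧ p.range = alternatingGroup (Fin n) ∧
    ∀ x : X, (x : G) ∈ Subgroup.closure (S : Set G) → p x = 1 → x = 1

/-- Every finite subgroup `D` of `G` is contained in a finite subgroup `M` such that, whenever
`p` is a homomorphism from a finite subgroup `X` containing `M` onto an alternating group which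
is not trivial on `D`, the group `D` has a regular orbit in the action given by `p` -/
def RegOrb (G : Type u) [Group G] : Prop :=
  ∀ D : Subgroup G, Finite D → ∃ M : Subgroup G, Finite M ∧ D ≤ M ∧
    ∀ X : Subgroup G, Finite X → M ≤ X → ∀ (n : ℕ) (p : X →* Equiv.Perm (Fin n)),
      p.range = alternatingGroup (Fin n) → (∃ x : X, (x : G) ∈ D ∧ p x ≠ 1) →
      ∃ ω : Fin n, ∀ x : X, (x : G) ∈ D → p x ω = ω → x = 1

section lin

variable (n : ℕ) (k : Type v) [Field k]

/-- the scalar matrices: the centre of the general linear group -/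
abbrev Scal : Subgroup (GL (Fin n) k) := Subgroup.center (GL (Fin n) k)

/-- the projective general linear group -/
abbrev PGrp : Type v := GL (Fin n) k ⧸ Scal n k

variable {n k}

/-- `Γ` is the special linear group -/
def IsSL (Γ : Subgroup (GL (Fin n) k)) : Prop :=
  ∀ g : GL (Fin n) k, g ∈ Γ ↔ g.val.det = 1

/-- `Γ` is the symplectic group of a nondegenerate alternating form with matrix `J` -/
def IsSp (Γ : Subgroup (GL (Fin n) k)) : Prop :=
  ∃ J : Matrix (Fin n) (Fin n) k, (∀ i, J i i = 0) ∧ Jᵀ = -J ∧ J.det ≠ 0 ∧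
    ∀ g : GL (Fin n) k, g ∈ Γ ↔ g.valᵀ * J * g.val = J

/-- `Γ` is the special unitary group of a nondegenerate hermitian form with matrix `H` -/
def IsSU (Γ : Subgroup (GL (Fin n) k)) : Prop :=
  ∃ (σ : k →+* k) (H : Matrix (Fin n) (Fin n) k), (∃ a, σ a ≠ a) ∧ (∀ a, σ (σ a) = a) ∧
    (∀ i j, H j i = σ (H i j)) ∧ H.det ≠ 0 ∧
    ∀ g : GL (Fin n) k, g ∈ Γ ↔ g.val.det = 1 ∧ g.valᵀ * H * g.val.map σ = H

/-- the isometry group of a quadratic form -/
def OGrp (Q : QuadraticForm k (Fin n → k)) : Set (GL (Fin n) k) :=
  {g | ∀ x, Q (g.val *ᵥ x) = Q x}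

/-- `Γ` is the commutator subgroup of the isometry group of a quadratic form whose polar
form is nondegenerate -/
def IsOm (Γ : Subgroup (GL (Fin n) k)) : Prop :=
  ∃ Q : QuadraticForm k (Fin n → k), (∀ x, (∀ y, Q (x + y) = Q x + Q y) → x = 0) ∧
    Γ = Subgroup.closure {c | ∃ a ∈ OGrp Q, ∃ b ∈ OGrp Q, c = a * b * a⁻¹ * b⁻¹}

/-- the classical groups, orthogonal groups in dimension at least seven only -/
def StdClassical (Γ : Subgroup (GL (Fin n) k)) : Prop :=
  IsSL Γ ∨ IsSp Γ ∨ IsSU Γ ∨ (IsOm Γ ∧ 7 ≤ n)

end lin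

variable {G : Type u} [Group G]

/-- `H` is confined: some finite set of nontrivial elements meets every conjugate of `H` -/
def Confined (H : Subgroup G) : Prop :=
  ∃ S : Finset G, (1 : G) ∉ S ∧ ∀ g : G, ∃ h ∈ H, g * h * g⁻¹ ∈ S

/-- there is no proper confined subgroup -/
def NoConf (G : Type u) [Group G] : Prop :=
  ∀ H : Subgroup G, Confined H → H = ⊤

/-- `X` normalises `T` -/
def NormIn (X T : Subgroup G) : Prop :=
  ∀ x ∈ X, ∀ t ∈ T, x * t * x⁻¹ ∈ T

/-- `C` is a normal subgroup of `T` and `T / C` is a nonabelian simple group -/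
def SimpleSec (T C : Subgroup G) : Prop :=
  C ≤ T ∧ NormIn T C ∧
  (∀ N : Subgroup G, C ≤ N → N ≤ T → NormIn T N → N = C ∨ N = T) ∧
  ∃ a ∈ T, ∃ b ∈ T, a * b * a⁻¹ * b⁻¹ ∉ C

/-- `C ≤ T` are normal subgroups of `X`, the section `T / C` is nonabelian simple and its
centraliser in `X / C` is trivial: `X / C` is almost simple with socle `T / C`. -/
def AlmostSimpleSec (X T C : Subgroup G) : Prop :=
  T ≤ X ∧ NormIn X C ∧ NormIn X T ∧ SimpleSec T C ∧
  ∀ x ∈ X, (∀ t ∈ T, x * t * x⁻¹ * t⁻¹ ∈ C) → x ∈ C

/-- `T / C` is isomorphic to an alternating group -/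
def AltSec (T C : Subgroup G) : Prop :=
  ∃ (n : ℕ) (p : T →* Equiv.Perm (Fin n)),
    (∀ t : T, p t = 1 ↔ (t : G) ∈ C) ∧ p.range = alternatingGroup (Fin n)

/-- a homomorphism of `T` with kernel `C` onto a classical group of degree `n` over `k` modulo
scalars exists -/
def StdOver (k : Type) [Field k] (n : ℕ) (T C : Subgroup G) : Prop :=
  ∃ (Γ : Subgroup (GL (Fin n) k)) (p : T →* PGrp n k),
    StdClassical Γ ∧ (∀ t : T, p t = 1 ↔ (t : G) ∈ C) ∧
      p.range = Γ.map (QuotientGroup.mk' (Scal n k))

/-- `T / C` is isomorphic to the quotient of a standard classical group over a finite field by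
its subgroup of scalars -/
def StdSec (T C : Subgroup G) : Prop :=
  ∃ (k : Type) (_ : Field k) (_ : Finite k) (n : ℕ), StdOver k n T C

/-- for some number `q` the order of `X / C` is at most `q ^ d`, and in every complex
representation of `X / C` without nonzero fixed vectors the ratio of the character values at
nontrivial elements to the degree is at most `d / √q` -/
def RatioSec (d : ℕ) (X C : Subgroup G) : Prop :=
  ∃ q : ℕ, Nat.card X ≤ q ^ d * Nat.card C ∧
    ∀ (n : ℕ) (ρ : X →* Matrix (Fin n) (Fin n) ℂ), (∀ x : X, (x : G) ∈ C → ρ x = 1) →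
      (∀ v : Fin n → ℂ, (∀ x, (ρ x).mulVec v = v) → v = 0) →
      ∀ x : X, (x : G) ∉ C → Real.sqrt q * ‖(ρ x).trace‖ ≤ d * n

/-- a homomorphism of `T` with kernel `C` into the projective linear group of degree `n` over
`k` exists -/
def ProjOver (k : Type) [Field k] (n : ℕ) (T C : Subgroup G) : Prop :=
  ∃ p : T →* PGrp n k, ∀ t : T, p t = 1 ↔ (t : G) ∈ C

/-- `T / C` is isomorphic to a group of projective linear maps of degree at most `d` over
some field -/
def LinSec (d : ℕ) (T C : Subgroup G) : Prop :=
  ∃ (k : Type) (_ : Field k), ∃ n ≤ d, ProjOver k n T C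

/-- a local system of finite subgroups -/
def LocalSystem (𝓛 : Set (Subgroup G)) : Prop :=
  (∀ K ∈ 𝓛, Finite K) ∧ ∀ S : Finset G, ∃ K ∈ 𝓛, (S : Set G) ⊆ K

/-- every almost simple quotient `X / C` of a perfect normal subgroup `X` of a member has
alternating socle, or is simple and: classical over a finite field, or with small character
ratios, or (for groups which are not linear) projectively linear of bounded degree -/
def AllTops (d : ℕ) (𝓛 : Set (Subgroup G)) : Prop :=
  ∀ K ∈ 𝓛, ∀ X ≤ K, NormIn K X → ⁅X, X⁆ = X →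
    ∀ T C : Subgroup G, AlmostSimpleSec X T C →
      AltSec T C ∨ (T = X ∧ (StdSec X C ∨ RatioSec d X C ∨ (¬ LinearGrp G ∧ LinSec d X C)))

end H49KF
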